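import Mathlib

namespace Pool.Agent.H.MP_c3017e_co

open Finset

def agree (f : ℕ → ℕ) (i j m : ℕ) : Prop := ∀ t < m, f (i + t) = f (j + t)

def slt (f : ℕ → ℕ) (i j : ℕ) : Prop := ∃ t, agree f i j t ∧ f (i + t) < f (j + t)

def Rep (n : ℕ) (f : ℕ → ℕ) (i m : ℕ) : Prop := ∃ j < n, slt f j i ∧ agree f i j m

variable {n : ℕ} {f : ℕ → ℕ}

lemma agree_symm {i j m : ℕ} (h : agree f i j m) : agree f j i m := fun t ht => (h t ht).symm

lemma agree_mono {i j m m' : ℕ} (h : agree f i j m) (hm : m' ≤ m) : agree f i j m' :=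
  fun t ht => h t (lt_of_lt_of_le ht hm)

lemma slt_irrefl (i : ℕ) : ¬ slt f i i := fun ⟨_, _, h⟩ => lt_irrefl _ h

lemma slt_trans {i j k : ℕ} (h1 : slt f i j) (h2 : slt f j k) : slt f i k := by
  obtain ⟨s, hs, hs'⟩ := h1
  obtain ⟨t, ht, ht'⟩ := h2
  rcases lt_trichotomy s t with h | h | h
  · exact ⟨s, fun u hu => (hs u hu).trans (ht u (hu.trans h)), by rw [← ht s h]; exact hs'⟩
  · subst h
    exact ⟨s, fun u hu => (hs u hu).trans (ht u hu), hs'.trans ht'⟩
  · exact ⟨t, fun u hu => (hs u (hu.trans h)).trans (ht u hu), by rw [hs t h]; exact ht'⟩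

lemma agree_bound (hf : ∀ x, f x = 0 ↔ n ≤ x) {i j m : ℕ} (hi : i < n) (hne : i ≠ j)
    (h : agree f i j m) : i + m ≤ n := by
  by_contra hc
  have h1 := h (n - i) (by omega)
  have h2 := h (n - i - 1) (by omega)
  have e1 : f (i + (n - i)) = 0 := (hf _).2 (by omega)
  have e2 : f (i + (n - i - 1)) ≠ 0 := fun e => by have := (hf _).1 e; omega
  rw [e1] at h1
  have a1 := (hf _).1 h1.symm
  have a2 : ¬ n ≤ j + (n - i - 1) := fun e => e2 (h2.trans ((hf _).2 e))
  omega

lemma slt_total (hf : ∀ x, f x = 0 ↔ n ≤ x) {i j : ℕ} (hi : i < n) (hne : i ≠ j) :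
    slt f i j ∨ slt f j i := by
  classical
  have hex : ∃ t, f (i + t) ≠ f (j + t) := by
    by_contra hc
    push Not at hc
    have := agree_bound hf hi hne (m := n + 1) (fun t _ => hc t)
    omega
  have h1 := Nat.find_spec hex
  have h2 : agree f i j (Nat.find hex) := fun u hu => by
    have := Nat.find_min hex hu
    push Not at this
    exact this
  rcases lt_or_gt_of_ne h1 with h | h
  · exact Or.inl ⟨_, h2, h⟩
  · exact Or.inr ⟨_, agree_symm h2, h⟩

lemma slt_convex {i j k m : ℕ} (h1 : slt f j k) (h2 : slt f k i) (h : agree f i j m) :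
    agree f i k m := by
  obtain ⟨t, ht, ht'⟩ := h2
  by_cases hm : m ≤ t
  · exact agree_mono (agree_symm ht) hm
  · exfalso
    have : slt f k j := ⟨t, fun u hu => (ht u hu).trans (h u (by omega)), by
      rw [← h t (by omega)]; exact ht'⟩
    exact slt_irrefl _ (slt_trans h1 this)

lemma slt_shift {i j : ℕ} (h : slt f j i) (h0 : f i = f j) : slt f (j + 1) (i + 1) := by
  obtain ⟨t, ht, ht'⟩ := h
  rcases t with _ | t
  · simp [h0] at ht'
  · refine ⟨t, fun u hu => ?_, ?_⟩
    · have := ht (u + 1) (by omega)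
      rwa [show j + 1 + u = j + (u + 1) by omega, show i + 1 + u = i + (u + 1) by omega]
    · rwa [show j + 1 + t = j + (t + 1) by omega, show i + 1 + t = i + (t + 1) by omega]

lemma slt_unshift {i j : ℕ} (h : slt f (j + 1) (i + 1)) (h0 : f i = f j) : slt f j i := by
  obtain ⟨t, ht, ht'⟩ := h
  refine ⟨t + 1, fun u hu => ?_, ?_⟩
  · rcases u with _ | u
    · simpa using h0.symm
    · have := ht u (by omega)
      rwa [show j + 1 + u = j + (u + 1) by omega, show i + 1 + u = i + (u + 1) by omega] at this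
  · rwa [show j + 1 + t = j + (t + 1) by omega, show i + 1 + t = i + (t + 1) by omega] at ht'

lemma rep_mono {i m m' : ℕ} (h : Rep n f i m) (hm : m' ≤ m) : Rep n f i m' :=
  let ⟨j, hj, h1, h2⟩ := h
  ⟨j, hj, h1, agree_mono h2 hm⟩

lemma rep_bound (hf : ∀ x, f x = 0 ↔ n ≤ x) {i m : ℕ} (hi : i < n) (h : Rep n f i m) :
    i + m ≤ n := by
  obtain ⟨j, -, h1, h2⟩ := h
  exact agree_bound hf hi (fun e => slt_irrefl (f := f) i (by rw [← e] at h1; exact h1)) h2

lemma rep_shift (hf : ∀ x, f x = 0 ↔ n ≤ x) {i m : ℕ} (hm : 1 ≤ m) (h : Rep n f i (m + 1)) :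
    Rep n f (i + 1) m := by
  obtain ⟨j, hj, h1, h2⟩ := h
  have hne : j ≠ i := fun e => slt_irrefl (f := f) i (by rw [e] at h1; exact h1)
  have hb := agree_bound hf hj hne (agree_symm h2)
  refine ⟨j + 1, by omega, slt_shift h1 (by simpa using h2 0 (by omega)), fun u hu => ?_⟩
  have := h2 (u + 1) (by omega)
  rwa [show j + 1 + u = j + (u + 1) by omega, show i + 1 + u = i + (u + 1) by omega]

lemma rep_shift_many (hf : ∀ x, f x = 0 ↔ n ≤ x) {i m : ℕ} (hm : 1 ≤ m) (d : ℕ)
    (h : Rep n f i (m + d)) : Rep n f (i + d) m := by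
  induction d generalizing i with
  | zero => simpa using h
  | succ d ih =>
    have := rep_shift hf (m := m + d) (by omega) h
    have := ih this
    rwa [show i + 1 + d = i + (d + 1) by omega] at this

open Classical in
/-- irreducible positions with their values, value at least `l`. -/
noncomputable def TT (n : ℕ) (f : ℕ → ℕ) (l : ℕ) : Finset (ℕ × ℕ) :=
  (range n ×ˢ range (n + 1)).filter fun q =>
    l ≤ q.2 ∧ Rep n f q.1 q.2 ∧ ¬ Rep n f q.1 (q.2 + 1) ∧
      ¬ (0 < q.1 ∧ Rep n f (q.1 - 1) (q.2 + 1))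

lemma rep_iff (hf : ∀ x, f x = 0 ↔ n ≤ x) {l : ℕ} (hl : 1 ≤ l) (i : ℕ) (hi : i < n) (m : ℕ)
    (hm : l ≤ m) : Rep n f i m ↔ ∃ q ∈ TT n f l, q.1 ≤ i ∧ i + m ≤ q.1 + q.2 := by
  classical
  constructor
  · induction i generalizing m with
    | zero =>
      intro h
      have hb := rep_bound hf hi h
      have h1 : Rep n f 0 (Nat.findGreatest (Rep n f 0) n) := Nat.findGreatest_spec (by omega) h
      have h2 : m ≤ Nat.findGreatest (Rep n f 0) n := Nat.le_findGreatest (by omega) h
      have h3 := Nat.findGreatest_le (P := Rep n f 0) n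
      refine ⟨(0, Nat.findGreatest (Rep n f 0) n), ?_, by simp, by simpa using h2⟩
      simp only [TT, mem_filter, mem_product, mem_range]
      refine ⟨⟨hi, by omega⟩, by omega, h1, fun h4 => ?_, by simp⟩
      have := rep_bound hf hi h4
      have := Nat.le_findGreatest (P := Rep n f 0) (by omega : _ ≤ n) h4
      omega
    | succ i ih =>
      intro h
      have hb := rep_bound hf hi h
      have h1 : Rep n f (i + 1) (Nat.findGreatest (Rep n f (i + 1)) n) :=
        Nat.findGreatest_spec (by omega) h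
      have h2 : m ≤ Nat.findGreatest (Rep n f (i + 1)) n := Nat.le_findGreatest (by omega) h
      have h3 := Nat.findGreatest_le (P := Rep n f (i + 1)) n
      by_cases hr : Rep n f i (Nat.findGreatest (Rep n f (i + 1)) n + 1)
      · obtain ⟨q, hq, a, b⟩ := ih (by omega) _ (by omega) hr
        exact ⟨q, hq, by omega, by omega⟩
      · refine ⟨(i + 1, Nat.findGreatest (Rep n f (i + 1)) n), ?_, by simp, by simpa using h2⟩
        simp only [TT, mem_filter, mem_product, mem_range]
        refine ⟨⟨hi, by omega⟩, by omega, h1, fun h4 => ?_, by simpa using hr⟩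
        have := rep_bound hf hi h4
        have := Nat.le_findGreatest (P := Rep n f (i + 1)) (by omega : _ ≤ n) h4
        omega
  · rintro ⟨q, hq, a, b⟩
    simp only [TT, mem_filter] at hq
    have h1 : Rep n f q.1 (m + (i - q.1)) := rep_mono hq.2.2.1 (by omega)
    have := rep_shift_many hf (by omega) _ h1
    rwa [show q.1 + (i - q.1) = i by omega] at this

open Classical in
noncomputable def rk (n : ℕ) (f : ℕ → ℕ) (i : ℕ) : ℕ := ((range n).filter fun j => slt f j i).card

lemma rk_lt {i j : ℕ} (hi : i < n) (h : slt f i j) : rk n f i < rk n f j := by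
  classical
  apply card_lt_card
  refine ⟨fun x hx => ?_, fun hc => ?_⟩
  · simp only [mem_filter] at hx ⊢
    exact ⟨hx.1, slt_trans hx.2 h⟩
  · have : i ∈ (range n).filter fun x => slt f x i := hc (by simp [hi, h])
    simp only [mem_filter] at this
    exact slt_irrefl _ this.2

lemma exists_pred (hf : ∀ x, f x = 0 ↔ n ≤ x) {i m : ℕ} (h : Rep n f i m) :
    ∃ j < n, slt f j i ∧ ∀ k < n, slt f k i → k = j ∨ slt f k j := by
  classical
  obtain ⟨j0, hj0, h1, -⟩ := h
  obtain ⟨j, hj, hmax⟩ := exists_max_image ((range n).filter fun j => slt f j i) (rk n f)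
    ⟨j0, by simp [hj0, h1]⟩
  simp only [mem_filter, mem_range] at hj hmax
  refine ⟨j, hj.1, hj.2, fun k hk hki => ?_⟩
  by_cases e : k = j
  · exact Or.inl e
  · rcases slt_total hf hk e with a | a
    · exact Or.inr a
    · have := rk_lt hj.1 a
      have := hmax k ⟨hk, hki⟩
      omega

/-- left context -/
def lc (f : ℕ → ℕ) (y u : ℕ) : ℕ := if u < y then f (y - 1 - u) else 0

def CC (n : ℕ) (f : ℕ → ℕ) (x p : ℕ) : Finset ℕ :=
  (range n).filter fun y => ∀ u < p, lc f y u = lc f x u

def light (n : ℕ) (f : ℕ → ℕ) (x p : ℕ) : Prop := 2 * (CC n f x (p + 1)).card ≤ (CC n f x p).card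

instance (x p : ℕ) : Decidable (light n f x p) := by unfold light; infer_instance

lemma CC_sub (x p : ℕ) : CC n f x (p + 1) ⊆ CC n f x p := by
  intro y hy
  simp only [CC, mem_filter] at hy ⊢
  exact ⟨hy.1, fun u hu => hy.2 u (by omega)⟩

lemma light_count {x : ℕ} (hx : x < n) (q : ℕ) :
    ((range q).filter fun p => light n f x p).card ≤ Nat.log 2 n := by
  have key : ∀ q, 2 ^ ((range q).filter fun p => light n f x p).card * (CC n f x q).card ≤ n := by
    intro q
    induction q with
    | zero =>
      simp only [range_zero, filter_empty, card_empty, pow_zero, one_mul]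
      exact (card_filter_le _ _).trans (by simp)
    | succ q ih =>
      rw [range_add_one, filter_insert]
      split_ifs with h
      · rw [card_insert_of_notMem (by simp), pow_succ, mul_assoc]
        exact (Nat.mul_le_mul_left _ h).trans ih
      · exact (Nat.mul_le_mul_left _ (card_le_card (CC_sub x q))).trans ih
  have h1 : 1 ≤ (CC n f x q).card := card_pos.2 ⟨x, by simp [CC, hx]⟩
  have h2 := key q
  apply Nat.le_log_of_pow_le (by norm_num)
  calc _ ≤ _ * (CC n f x q).card := Nat.le_mul_of_pos_right _ h1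
    _ ≤ n := h2

lemma light_or {x y p : ℕ} (h1 : ∀ u < p, lc f y u = lc f x u) (h2 : lc f y p ≠ lc f x p) :
    light n f x p ∨ light n f y p := by
  have e : CC n f y p = CC n f x p := by
    ext z
    simp only [CC, mem_filter]
    exact ⟨fun h => ⟨h.1, fun u hu => (h.2 u hu).trans (h1 u hu)⟩,
      fun h => ⟨h.1, fun u hu => (h.2 u hu).trans (h1 u hu).symm⟩⟩
  have hd : Disjoint (CC n f x (p + 1)) (CC n f y (p + 1)) := by
    rw [disjoint_left]
    intro z a b
    simp only [CC, mem_filter] at a b
    exact h2 ((b.2 p (by omega)).symm.trans (a.2 p (by omega)))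
  have hs : CC n f x (p + 1) ∪ CC n f y (p + 1) ⊆ CC n f x p :=
    union_subset (CC_sub x p) (e ▸ CC_sub y p)
  have := card_le_card hs
  rw [card_union_of_disjoint hd] at this
  unfold light
  rw [e]
  omega

lemma TT_card (hf : ∀ x, f x = 0 ↔ n ≤ x) (l : ℕ) :
    (TT n f l).card * l ≤ 2 * (n * Nat.log 2 n) := by
  classical
  have hp : ∀ i, ∃ j, (∃ m, Rep n f i m) →
      j < n ∧ slt f j i ∧ ∀ k < n, slt f k i → k = j ∨ slt f k j := by
    intro i
    by_cases h : ∃ m, Rep n f i m
    · obtain ⟨m, hm⟩ := h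
      obtain ⟨j, hj⟩ := exists_pred hf hm
      exact ⟨j, fun _ => hj⟩
    · exact ⟨0, fun h' => (h h').elim⟩
  choose π hπ using hp
  set Lt : Finset (ℕ × ℕ) := (range n ×ˢ range l).filter fun z => light n f z.1 z.2 with hLt
  have hLc : Lt.card ≤ n * Nat.log 2 n := by
    have : Lt = (range n).biUnion fun x => ((range l).filter fun p => light n f x p).image
        fun p => (x, p) := by
      ext ⟨x, p⟩
      simp [hLt]
      tauto
    rw [this]
    refine card_biUnion_le.trans ?_
    calc _ ≤ ∑ _x ∈ range n, Nat.log 2 n := sum_le_sum fun x hx =>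
            card_image_le.trans (light_count (mem_range.1 hx) l)
      _ = _ := by simp
  have facts : ∀ q ∈ TT n f l, q.1 < n ∧ π q.1 < n ∧ slt f (π q.1) q.1 ∧
      (∀ k < n, slt f k q.1 → k = π q.1 ∨ slt f k (π q.1)) ∧ q.1 + l ≤ n ∧ π q.1 + l ≤ n ∧
      ∀ p < l, light n f (q.1 + p) p ∨ light n f (π q.1 + p) p := by
    intro q hq
    simp only [TT, mem_filter, mem_product, mem_range] at hq
    obtain ⟨⟨hi, -⟩, hl, hr, -, hirr⟩ := hq
    obtain ⟨a, b, c⟩ := hπ q.1 ⟨_, hr⟩
    have hag : agree f q.1 (π q.1) q.2 := by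
      obtain ⟨j, hj, h1, h2⟩ := hr
      rcases c j hj h1 with e | e
      · exact e ▸ h2
      · exact slt_convex e b h2
    have hne : π q.1 ≠ q.1 := fun e => slt_irrefl (f := f) q.1 (by rw [e] at b; exact b)
    have b1 := agree_bound hf hi hne.symm hag
    have b2 := agree_bound hf a hne (agree_symm hag)
    refine ⟨hi, a, b, c, by omega, by omega, fun p hp => light_or (fun u hu => ?_) ?_⟩
    · simp only [lc]
      rw [if_pos (by omega), if_pos (by omega)]
      have := hag (p - 1 - u) (by omega)
      rw [show π q.1 + p - 1 - u = π q.1 + (p - 1 - u) by omega,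
        show q.1 + p - 1 - u = q.1 + (p - 1 - u) by omega]
      exact this.symm
    · simp only [lc]
      generalize π q.1 = j at *
      generalize q.1 = i at *
      rcases i with _ | i
      · rw [if_pos (by omega), if_neg (by omega)]
        intro e
        have := (hf _).1 e
        omega
      · rcases j with _ | j
        · rw [if_neg (by omega), if_pos (by omega)]
          intro e
          have := (hf _).1 e.symm
          omega
        · rw [if_pos (by omega), if_pos (by omega), show j + 1 + p - 1 - p = j by omega,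
            show i + 1 + p - 1 - p = i by omega]
          intro e
          apply hirr
          refine ⟨by omega, j, by omega, slt_unshift b e.symm, fun u hu => ?_⟩
          rcases u with _ | u
          · simpa using e.symm
          · have := hag u (by omega)
            rwa [show j + 1 + u = j + (u + 1) by omega,
              show i + 1 + u = i + 1 - 1 + (u + 1) by omega] at this
  have fst_inj : ∀ q ∈ TT n f l, ∀ q' ∈ TT n f l, q.1 = q'.1 → q = q' := by
    intro q hq q' hq' e
    simp only [TT, mem_filter] at hq hq'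
    have : q.2 = q'.2 := by
      by_contra hc
      rcases lt_or_gt_of_ne hc with h | h
      · exact hq.2.2.2.1 (e ▸ rep_mono hq'.2.2.1 h)
      · exact hq'.2.2.2.1 (e ▸ rep_mono hq.2.2.1 h)
    exact Prod.ext e this
  have pi_inj : ∀ q ∈ TT n f l, ∀ q' ∈ TT n f l, π q.1 = π q'.1 → q.1 = q'.1 := by
    intro q hq q' hq' e
    obtain ⟨a1, -, a2, a3, -⟩ := facts q hq
    obtain ⟨b1, -, b2, b3, -⟩ := facts q' hq'
    by_contra hc
    rcases slt_total hf a1 hc with h | h
    · rcases b3 _ a1 h with g | g
      · rw [← e] at g; rw [← g] at a2; exact slt_irrefl _ a2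
      · rw [← e] at g; exact slt_irrefl _ (slt_trans g a2)
    · rcases a3 _ b1 h with g | g
      · rw [e] at g; rw [← g] at b2; exact slt_irrefl _ b2
      · rw [e] at g; exact slt_irrefl _ (slt_trans g b2)
  have hmap : (TT n f l ×ˢ range l).card ≤ (Lt ×ˢ (univ : Finset Bool)).card := by
    apply card_le_card_of_injOn (fun z => if light n f (z.1.1 + z.2) z.2 then
      ((z.1.1 + z.2, z.2), true) else ((π z.1.1 + z.2, z.2), false))
    · intro z hz
      simp only [coe_product, Set.mem_prod, mem_coe, mem_range] at hz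
      obtain ⟨-, -, -, -, c1, c2, c3⟩ := facts _ hz.1
      have := hz.2
      simp only [coe_product, Set.mem_prod, mem_coe, mem_univ, and_true]
      split_ifs with h
      · simp only [hLt, mem_filter, mem_product, mem_range]
        exact ⟨⟨by omega, hz.2⟩, h⟩
      · simp only [hLt, mem_filter, mem_product, mem_range]
        exact ⟨⟨by omega, hz.2⟩, (c3 _ hz.2).resolve_left h⟩
    · intro z hz z' hz' e
      simp only [coe_product, Set.mem_prod, mem_coe, mem_range] at hz hz'
      simp only at e
      split_ifs at e with h h' h'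
      · simp only [Prod.mk.injEq, and_true] at e
        exact Prod.ext (fst_inj _ hz.1 _ hz'.1 (by omega)) e.2
      · simp at e
      · simp at e
      · simp only [Prod.mk.injEq, and_true] at e
        exact Prod.ext (fst_inj _ hz.1 _ hz'.1 (pi_inj _ hz.1 _ hz'.1 (by omega))) e.2
  rw [card_product, card_product, card_range] at hmap
  simp only [card_univ, Fintype.card_bool] at hmap
  omega

end Pool.Agent.H.MP_c3017e_co
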